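import Pool.Agent.W555.KS.Defs

set_option autoImplicit false

namespace Pool.Agent.W682.KS

open Pool.Agent.W555.KS Finset Polynomial

/-! closed form of `Bd` -/

theorem Bd_eq (n d : ℕ) : ∀ j r : ℕ,
    Bd n d j r = ∑ s ∈ range (r + 1), Nh n d s * Nat.multichoose j (r - s) := by
  intro j
  induction j with
  | zero =>
    intro r
    rw [Finset.sum_range_succ, Finset.sum_eq_zero]
    · simp [Bd]
    · intro s hs
      have hs' : s < r := Finset.mem_range.1 hs
      obtain ⟨t, ht⟩ : ∃ t, r - s = t + 1 := ⟨r - s - 1, by omega⟩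
      rw [ht, Nat.multichoose_zero_succ, mul_zero]
  | succ j ih =>
    intro r
    induction r with
    | zero =>
      simp [Bd, ih]
    | succ r ihr =>
      rw [Bd, ihr, ih, Finset.sum_range_succ _ (r + 1), Finset.sum_range_succ _ (r + 1),
        ← add_assoc, ← Finset.sum_add_distrib]
      congr 1
      · apply Finset.sum_congr rfl
        intro s hs
        have hs' : s < r + 1 := Finset.mem_range.1 hs
        have h1 : r + 1 - s = (r - s) + 1 := by omega
        rw [h1, Nat.multichoose_succ_succ]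
        ring
      · simp

/-- the polynomial with the coefficients `Bd` -/
noncomputable def P (n d : ℕ) : ℕ[X] :=
  ∑ r ∈ range (d + 1), C (Nh n d r) * (X ^ r * (1 + X) ^ (d - r))

theorem P_coeff (n d k : ℕ) (hk : k ≤ d) : (P n d).coeff k = Bd n d (d + 1 - k) k := by
  rw [P, Polynomial.finsetSum_coeff, Bd_eq]
  have h1 : ∀ r ∈ range (d + 1), (C (Nh n d r) * (X ^ r * (1 + X) ^ (d - r)) : ℕ[X]).coeff k
      = if r ≤ k then Nh n d r * Nat.choose (d - r) (k - r) else 0 := by
    intro r _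
    rw [Polynomial.coeff_C_mul, Polynomial.coeff_X_pow_mul', Polynomial.coeff_one_add_X_pow]
    split_ifs <;> simp
  rw [Finset.sum_congr rfl h1, ← Finset.sum_filter]
  have h2 : (range (d + 1)).filter (fun r => r ≤ k) = range (k + 1) := by
    ext r; simp only [Finset.mem_filter, Finset.mem_range]; omega
  rw [h2]
  apply Finset.sum_congr rfl
  intro s hs
  have hs' : s < k + 1 := Finset.mem_range.1 hs
  rw [Nat.multichoose_eq]
  congr 2
  omega

theorem Nh_rec (n d r : ℕ) (hn : d + 1 ≤ n) :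
    Nh (n + 3) (d + 2) (r + 1) = Nh (n + 2) (d + 2) (r + 1) + Nh (n + 1) d r := by
  unfold Nh
  by_cases h : d + 2 < r + 1
  · rw [if_pos h, if_pos h, if_pos (by omega)]
  rw [if_neg h, if_neg h]
  by_cases h2 : d < r
  · rw [if_pos h2]
    have h3 : r = d + 1 := by omega
    subst h3
    simp
  · rw [if_neg h2]
    have h3 : min (r + 1) (d + 2 - (r + 1)) = min r (d - r) + 1 := by omega
    rw [h3]
    generalize min r (d - r) = m
    have h4 : n + 3 - (d + 2) - 1 + (m + 1) = (n - d + m) + 1 := by omega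
    have h5 : n + 2 - (d + 2) - 1 + (m + 1) = n - d + m := by omega
    have h6 : n + 1 - d - 1 + m = n - d + m := by omega
    rw [h4, h5, h6, Nat.choose_succ_succ, add_comm]

theorem P_rec (n d : ℕ) (hn : d + 1 ≤ n) :
    P (n + 3) (d + 2) = P (n + 2) (d + 2) + X * (1 + X) * P (n + 1) d := by
  have hz : ∀ n d, Nh n d 0 = 1 := by intro n d; simp [Nh]
  have e1 : P (n + 1) d = ∑ r ∈ range (d + 2), C (Nh (n + 1) d r) * (X ^ r * (1 + X) ^ (d - r)) := by
    rw [Finset.sum_range_succ, P]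
    have : Nh (n + 1) d (d + 1) = 0 := by simp [Nh]
    rw [this]; simp
  rw [e1, P, P, Finset.sum_range_succ' _ (d + 2), Finset.sum_range_succ' _ (d + 2), hz, hz,
    Finset.mul_sum, add_right_comm, ← Finset.sum_add_distrib]
  congr 1
  apply Finset.sum_congr rfl
  intro r hr
  have hr' : r < d + 2 := Finset.mem_range.1 hr
  rw [Nh_rec n d r hn, map_add]
  by_cases h2 : r ≤ d
  · have h3 : d + 2 - (r + 1) = (d - r) + 1 := by omega
    rw [h3]
    ring
  · have h3 : Nh (n + 1) d r = 0 := by unfold Nh; rw [if_pos (by omega)]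
    rw [h3]; simp

/-! polynomials for `cA`, `cB`, `cC` -/

mutual
noncomputable def QB : ℕ → ℕ → ℕ[X]
  | 0, _ => 1
  | n + 1, 0 => QB n 0
  | n + 1, d + 1 => QB n (d + 1) + X * QC n d
noncomputable def QC : ℕ → ℕ → ℕ[X]
  | 0, _ => 1
  | _ + 1, 0 => 0
  | n + 1, d + 1 => QB n d + X * QB n d
end

noncomputable def QA : ℕ → ℕ → ℕ[X]
  | 0, _ => 1
  | n + 1, 0 => QB n 0
  | n + 1, d + 1 => QB n (d + 1) + X * QA n d

theorem cB_1 (n k : ℕ) : cB (n + 1) 0 k = cB n 0 k := by rw [cB.eq_def]; simp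
theorem cB_2 (n d : ℕ) : cB (n + 1) (d + 1) 0 = cB n (d + 1) 0 := by rw [cB.eq_def]; simp
theorem cB_3 (n d k : ℕ) : cB (n + 1) (d + 1) (k + 1) = cB n (d + 1) (k + 1) + cC n d k := by
  rw [cB.eq_def]
theorem cC_1 (n k : ℕ) : cC (n + 1) 0 k = 0 := by rw [cC.eq_def]
theorem cC_2 (n d : ℕ) : cC (n + 1) (d + 1) 0 = cB n d 0 := by rw [cC.eq_def]; simp
theorem cC_3 (n d k : ℕ) : cC (n + 1) (d + 1) (k + 1) = cB n d (k + 1) + cB n d k := by
  rw [cC.eq_def]
theorem cA_1 (n k : ℕ) : cA (n + 1) 0 k = cB n 0 k := by rw [cA.eq_def]; simp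
theorem cA_2 (n d : ℕ) : cA (n + 1) (d + 1) 0 = cB n (d + 1) 0 := by rw [cA.eq_def]; simp
theorem cA_3 (n d k : ℕ) : cA (n + 1) (d + 1) (k + 1) = cB n (d + 1) (k + 1) + cA n d k := by
  rw [cA.eq_def]

theorem coeff_QBC : ∀ n : ℕ, (∀ d k, (QB n d).coeff k = cB n d k) ∧
    (∀ d k, (QC n d).coeff k = cC n d k) := by
  intro n
  induction n with
  | zero =>
    constructor
    · intro d k
      rw [QB, cB, Polynomial.coeff_one]
    · intro d k
      rw [QC, cC, Polynomial.coeff_one]
  | succ n ih =>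
    constructor
    · intro d k
      cases d with
      | zero => rw [QB, cB_1, ih.1]
      | succ d =>
        rw [QB, Polynomial.coeff_add, ih.1]
        cases k with
        | zero => rw [cB_2]; simp
        | succ k => rw [Polynomial.coeff_X_mul, ih.2, cB_3]
    · intro d k
      cases d with
      | zero => rw [QC, cC_1]; simp
      | succ d =>
        rw [QC, Polynomial.coeff_add, ih.1]
        cases k with
        | zero => rw [cC_2]; simp
        | succ k => rw [Polynomial.coeff_X_mul, ih.1, cC_3]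

theorem coeff_QA : ∀ n d k : ℕ, (QA n d).coeff k = cA n d k := by
  intro n
  induction n with
  | zero => intro d k; rw [QA, cA, Polynomial.coeff_one]
  | succ n ih =>
    intro d k
    cases d with
    | zero => rw [QA, cA_1, (coeff_QBC n).1]
    | succ d =>
      rw [QA, Polynomial.coeff_add, (coeff_QBC n).1]
      cases k with
      | zero => rw [cA_2]; simp
      | succ k => rw [Polynomial.coeff_X_mul, ih, cA_3]

theorem QB_zero (n : ℕ) : QB n 0 = 1 := by
  induction n with
  | zero => rw [QB]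
  | succ n ih => rw [QB, ih]

theorem QA_zero (n : ℕ) : QA n 0 = 1 := by
  cases n with
  | zero => rw [QA]
  | succ n => rw [QA, QB_zero]

theorem QB_rec (n d : ℕ) : QB (n + 2) (d + 2) = QB (n + 1) (d + 2) + X * (1 + X) * QB n d := by
  rw [QB, QC]; ring

theorem QB_one (n : ℕ) : QB (n + 1) 1 = 1 + X := by
  induction n with
  | zero => rw [QB, QB, QC]; simp
  | succ n ih => rw [QB, ih, QC]; simp

theorem QA_one (n : ℕ) : QA (n + 2) 1 = 1 + X + X := by
  rw [QA, QA_zero, QB_one]; simp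

theorem QA_ss (n d : ℕ) : QA (n + 1) (d + 1) = QB n (d + 1) + X * QA n d := by rw [QA]

theorem QA_rec : ∀ d n : ℕ, d + 1 ≤ n →
    QA (n + 3) (d + 2) = QA (n + 2) (d + 2) + X * (1 + X) * QA (n + 1) d := by
  intro d
  induction d with
  | zero =>
    intro n hn
    obtain ⟨m, rfl⟩ : ∃ m, n = m + 1 := ⟨n - 1, by omega⟩
    have h1 : QA (m + 1 + 3) (0 + 2) = QB (m + 3) 2 + X * QA (m + 3) 1 := QA_ss _ _
    have h2 : QA (m + 1 + 2) (0 + 2) = QB (m + 2) 2 + X * QA (m + 2) 1 := QA_ss _ _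
    have h3 : QB (m + 3) 2 = QB (m + 2) 2 + X * (1 + X) * QB (m + 1) 0 := QB_rec _ _
    have h4 : QA (m + 3) 1 = 1 + X + X := QA_one _
    have h5 : QA (m + 2) 1 = 1 + X + X := QA_one _
    rw [h1, h2, h3, h4, h5, QB_zero, QA_zero]
    ring
  | succ d ih =>
    intro n hn
    obtain ⟨m, rfl⟩ : ∃ m, n = m + 1 := ⟨n - 1, by omega⟩
    have h1 : QA (m + 1 + 3) (d + 1 + 2) = QB (m + 3) (d + 3) + X * QA (m + 3) (d + 2) := QA_ss _ _
    have h2 : QA (m + 1 + 2) (d + 1 + 2) = QB (m + 2) (d + 3) + X * QA (m + 2) (d + 2) := QA_ss _ _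
    have h3 : QB (m + 3) (d + 3) = QB (m + 2) (d + 3) + X * (1 + X) * QB (m + 1) (d + 1) :=
      QB_rec _ _
    have h4 : QA (m + 1 + 1) (d + 1) = QB (m + 1) (d + 1) + X * QA (m + 1) d := QA_ss _ _
    rw [h1, h2, h3, ih m (by omega), h4]
    ring

/-! base case -/

theorem QBC_small : ∀ n : ℕ, (∀ d, n ≤ d → QB n d = (1 + X) ^ n) ∧
    (∀ d, n ≤ d → QC n d = (1 + X) ^ n) := by
  intro n
  induction n with
  | zero =>
    constructor
    · intro d _; rw [QB]; simp
    · intro d _; rw [QC]; simp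
  | succ n ih =>
    constructor
    · intro d hd
      obtain ⟨e, rfl⟩ : ∃ e, d = e + 1 := ⟨d - 1, by omega⟩
      rw [QB, ih.1 _ (by omega), ih.2 _ (by omega)]; ring
    · intro d hd
      obtain ⟨e, rfl⟩ : ∃ e, d = e + 1 := ⟨d - 1, by omega⟩
      rw [QC, ih.1 _ (by omega)]; ring

theorem QA_base (d : ℕ) : QA (d + 1) d = ∑ r ∈ range (d + 1), X ^ r * (1 + X) ^ (d - r) := by
  induction d with
  | zero => rw [QA, QB_zero]; simp
  | succ d ih =>
    rw [QA, ih, (QBC_small (d + 1)).1 _ le_rfl, Finset.sum_range_succ' _ (d + 1), Finset.mul_sum,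
      add_comm]
    congr 1
    · apply Finset.sum_congr rfl
      intro r _
      rw [show d + 1 - (r + 1) = d - r by omega]
      ring
    · simp

theorem P_base (d : ℕ) : P (d + 1) d = ∑ r ∈ range (d + 1), X ^ r * (1 + X) ^ (d - r) := by
  rw [P]
  apply Finset.sum_congr rfl
  intro r hr
  have hr' : r < d + 1 := Finset.mem_range.1 hr
  have : Nh (d + 1) d r = 1 := by
    unfold Nh
    rw [if_neg (by omega)]
    simp
  rw [this]; simp

theorem P_zero (n : ℕ) : P n 0 = 1 := by
  simp [P, Nh]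

theorem P_one (n : ℕ) : P n 1 = 1 + X + X := by
  rw [P, Finset.sum_range_succ, Finset.sum_range_one]
  simp [Nh]

theorem P_eq_QA : ∀ d m : ℕ, P (d + 1 + m) d = QA (d + 1 + m) d := by
  intro d
  induction d using Nat.strong_induction_on with
  | _ d ih =>
    intro m
    induction m with
    | zero => rw [add_zero, P_base, QA_base]
    | succ m ihm =>
      match d, ih, ihm with
      | 0, _, _ => rw [P_zero, QA_zero]
      | 1, _, _ =>
        rw [P_one, show 1 + 1 + (m + 1) = (m + 1) + 2 by ring, QA_one]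
      | e + 2, ih, ihm =>
        have h1 : e + 2 + 1 + (m + 1) = (e + 1 + m) + 3 := by ring
        have h2 : e + 2 + 1 + m = (e + 1 + m) + 2 := by ring
        rw [h1, P_rec _ _ (by omega), QA_rec _ _ (by omega)]
        rw [h2] at ihm
        rw [ihm]
        have h3 := ih e (by omega) (m + 1)
        rw [show e + 1 + (m + 1) = e + 1 + m + 1 by ring] at h3
        rw [h3]

/-- KS-GNUM -/
theorem gnum : StGNum := by
  intro n d j hj hd
  obtain ⟨m, rfl⟩ : ∃ m, n = d + 1 + m := ⟨n - (d + 1), by omega⟩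
  have h1 := P_coeff (d + 1 + m) d (j + 1) (by omega)
  rw [show d + 1 - (j + 1) = d - j by omega] at h1
  rw [← h1, P_eq_QA, coeff_QA]

end Pool.Agent.W682.KS
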